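import Pool.Agent.Helper76.FT.GoalsG
import Pool.Agent.Helper27.TW.D12
import Pool.Agent.Helper40.TWOsg

/-! Packet FT-SIGN of MP_39e2b7_an: signs and bounds of the local position functions. -/

set_option autoImplicit false

namespace Pool.Agent.Helper83.FT

open Complex Set Filter Topology
open Pool.Agent.Helper76.FT
open Pool.Agent.Helper83.TW (D1 D2)

theorem d12 : Pool.Agent.Helper83.TW.GD12 :=
  Pool.Agent.Helper27.TW.gD12 Pool.Agent.Helper40.TWOsg.gOsg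

/-- one-variable estimate -/
theorem one_var {G : ℂ → ℂ} {v r M ε : ℝ} (hr : 0 < r) (hM : 0 < M) (hε : 0 < ε)
    (hG : DifferentiableOn ℂ G (Metric.ball (v : ℂ) r))
    (hb : ∀ z ∈ Metric.ball (v : ℂ) r, ‖G z‖ ≤ M) {h : ℝ} (h0 : 0 < h) (h1 : h ≤ r / 8)
    (h2 : h * (32 * M) ≤ ε * r ^ 2) :
    ‖G (v + h * I) - G v - deriv G v * (h * I)‖ ≤ ε * h ∧ ‖G (v + h * I) - G v‖ ≤ 4 * M / r * h := by
  have hder : ∀ z : ℂ, ‖z - v‖ ≤ r / 2 → ‖deriv G z‖ ≤ 4 * M / r := by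
    intro z hz
    have hsub : Metric.closedBall z (r / 4) ⊆ Metric.ball (v : ℂ) r := by
      intro y hy
      rw [Metric.mem_closedBall, dist_eq_norm] at hy
      rw [Metric.mem_ball, dist_eq_norm]
      calc ‖y - v‖ = ‖(y - z) + (z - v)‖ := by ring_nf
        _ ≤ ‖y - z‖ + ‖z - v‖ := norm_add_le _ _
        _ < r := by linarith
    have := Complex.norm_deriv_le_of_forall_mem_sphere_norm_le (f := G) (c := z) (R := r / 4)
      (C := M) (by linarith) ((hG.mono hsub).diffContOnCl_ball subset_rfl)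
      (fun y hy => hb y (hsub (Metric.sphere_subset_closedBall hy)))
    calc ‖deriv G z‖ ≤ M / (r / 4) := this
      _ = 4 * M / r := by field_simp
  have hdG : DifferentiableOn ℂ (deriv G) (Metric.ball (v : ℂ) r) := hG.deriv Metric.isOpen_ball
  have hder2 : ∀ z : ℂ, ‖z - v‖ ≤ r / 4 → ‖deriv (deriv G) z‖ ≤ 16 * M / r ^ 2 := by
    intro z hz
    have hsub : Metric.closedBall z (r / 4) ⊆ Metric.ball (v : ℂ) r := by
      intro y hy
      rw [Metric.mem_closedBall, dist_eq_norm] at hy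
      rw [Metric.mem_ball, dist_eq_norm]
      calc ‖y - v‖ = ‖(y - z) + (z - v)‖ := by ring_nf
        _ ≤ ‖y - z‖ + ‖z - v‖ := norm_add_le _ _
        _ < r := by linarith
    have := Complex.norm_deriv_le_of_forall_mem_sphere_norm_le (f := deriv G) (c := z) (R := r / 4)
      (C := 4 * M / r) (by linarith) ((hdG.mono hsub).diffContOnCl_ball subset_rfl)
      (fun y hy => hder y (by
        rw [mem_sphere_iff_norm] at hy
        calc ‖y - v‖ = ‖(y - z) + (z - v)‖ := by ring_nf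
          _ ≤ ‖y - z‖ + ‖z - v‖ := norm_add_le _ _
          _ ≤ r / 2 := by linarith))
    calc ‖deriv (deriv G) z‖ ≤ 4 * M / r / (r / 4) := this
      _ = 16 * M / r ^ 2 := by field_simp; ring
  have hball : ∀ z ∈ Metric.closedBall (v : ℂ) h, ‖z - v‖ ≤ r / 8 := by
    intro z hz
    rw [Metric.mem_closedBall, dist_eq_norm] at hz
    linarith
  have hmemb : ∀ z ∈ Metric.closedBall (v : ℂ) h, z ∈ Metric.ball (v : ℂ) r := by
    intro z hz
    rw [Metric.mem_ball, dist_eq_norm]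
    linarith [hball z hz]
  have hda : ∀ z ∈ Metric.closedBall (v : ℂ) h, DifferentiableAt ℂ G z := fun z hz =>
    (hG z (hmemb z hz)).differentiableAt (Metric.isOpen_ball.mem_nhds (hmemb z hz))
  have hdda : ∀ z ∈ Metric.closedBall (v : ℂ) h, DifferentiableAt ℂ (deriv G) z := fun z hz =>
    (hdG z (hmemb z hz)).differentiableAt (Metric.isOpen_ball.mem_nhds (hmemb z hz))
  have hv : (v : ℂ) ∈ Metric.closedBall (v : ℂ) h := Metric.mem_closedBall_self h0.le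
  have hvh : (v : ℂ) + h * I ∈ Metric.closedBall (v : ℂ) h := by
    rw [Metric.mem_closedBall, dist_eq_norm]
    have : (v : ℂ) + h * I - v = h * I := by ring
    rw [this, norm_mul, Complex.norm_I, mul_one, Complex.norm_real, Real.norm_eq_abs,
      abs_of_pos h0]
  have hnorm : ‖(v : ℂ) + h * I - v‖ = h := by
    have : (v : ℂ) + h * I - v = h * I := by ring
    rw [this, norm_mul, Complex.norm_I, mul_one, Complex.norm_real, Real.norm_eq_abs,
      abs_of_pos h0]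
  constructor
  · have hdiff : ∀ z ∈ Metric.closedBall (v : ℂ) h, ‖deriv G z - deriv G v‖ ≤ ε := by
      intro z hz
      have h3 := (convex_closedBall (v : ℂ) h).norm_image_sub_le_of_norm_deriv_le
        (f := deriv G) (C := 16 * M / r ^ 2) hdda (fun y hy => hder2 y (by linarith [hball y hy]))
        hv hz
      have h4 : ‖z - v‖ ≤ h := by
        rw [Metric.mem_closedBall, dist_eq_norm] at hz
        exact hz
      have h5 : 16 * M / r ^ 2 * ‖z - v‖ ≤ ε := by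
        have : 16 * M / r ^ 2 * ‖z - v‖ ≤ 16 * M / r ^ 2 * h :=
          mul_le_mul_of_nonneg_left h4 (by positivity)
        have h6 : 16 * M / r ^ 2 * h ≤ ε := by
          rw [div_mul_eq_mul_div, div_le_iff₀ (by positivity)]
          nlinarith
        linarith
      linarith
    have h3 := (convex_closedBall (v : ℂ) h).norm_image_sub_le_of_norm_deriv_le
      (f := fun z => G z - deriv G v * z) (C := ε)
      (fun z hz => (hda z hz).sub ((differentiableAt_const _).mul differentiableAt_id))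
      (fun z hz => by
        have : deriv (fun z => G z - deriv G v * z) z = deriv G z - deriv G v := by
          have e1 : HasDerivAt (fun z => deriv G v * z) (deriv G v) z := by
            simpa using (hasDerivAt_id z).const_mul (deriv G v)
          exact ((hda z hz).hasDerivAt.sub e1).deriv
        rw [this]
        exact hdiff z hz) hv hvh
    rw [hnorm] at h3
    calc ‖G (v + h * I) - G v - deriv G v * (h * I)‖
        = ‖(G (v + h * I) - deriv G v * (v + h * I)) - (G v - deriv G v * v)‖ := by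
          congr 1; ring
      _ ≤ ε * h := h3
  · have h3 := (convex_closedBall (v : ℂ) h).norm_image_sub_le_of_norm_deriv_le
      (f := G) (C := 4 * M / r) hda (fun z hz => hder z (by linarith [hball z hz])) hv hvh
    rw [hnorm] at h3
    exact h3

/-- abstract form of the sign estimate; `σ = 1` (one kick forwards) or `σ = -1` (backwards) -/
theorem sig {σ : ℝ} (hσ : σ = 1 ∨ σ = -1) {k : ℂ × ℂ → ℂ} {N : Set (ℂ × ℂ)} (hN : IsOpen N)
    (R : Set (ℝ × ℝ)) {r M m : ℝ} (hr : 0 < r) (hM : 0 < M) (hm : 0 < m)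
    (hRN : ∀ y ∈ R, ∀ z : ℂ × ℂ, ‖z.1 - (y.1 : ℂ)‖ < r → ‖z.2 - (y.2 : ℂ)‖ < r → z ∈ N)
    (hk : DifferentiableOn ℂ k N) (hb : ∀ z ∈ N, ‖k z‖ ≤ M)
    (hre : ∀ y ∈ R, (k ((y.1 : ℂ), (y.2 : ℂ))).im = 0)
    (hD : ∀ y ∈ R, ∀ al : ℝ, 0 ≤ al → al ≤ 1 →
      m ≤ al + (σ * al * D1 k ((y.1 : ℂ), (y.2 : ℂ)) + D2 k ((y.1 : ℂ), (y.2 : ℂ))).re) :
    ∀ (q v al be h : ℝ), 0 ≤ al → al ≤ 1 → 0 ≤ be → be ≤ 1 → (q + σ * al * v, v) ∈ R → 0 < h →
      h ≤ r / 8 → h * (32 * M) ≤ m / 4 * r ^ 2 →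
      min (1 / 2) (m / 8) * (al + be) * h ≤
        σ * ((q : ℂ) + σ * al * (v + h * I) +
          σ * be * k ((q : ℂ) + σ * al * (v + h * I), v + h * I)).im ∧
      |(k ((q : ℂ) + σ * al * (v + h * I), v + h * I)).im| ≤ 4 * M / r * h ∧
      ‖k ((q : ℂ) + σ * al * (v + h * I), v + h * I)‖ ≤ M := by
  intro q v al be h hal0 hal1 hbe0 hbe1 hR h0 h1 h2
  have hσa : |σ * al| ≤ 1 := by
    rcases hσ with rfl | rfl
    · rw [abs_le]; constructor <;> linarith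
    · rw [abs_le]; constructor <;> linarith
  set G : ℂ → ℂ := fun z => k ((q : ℂ) + σ * al * z, z) with hG
  have hmem : ∀ z ∈ Metric.ball (v : ℂ) r, ((q : ℂ) + σ * al * z, z) ∈ N := by
    intro z hz
    rw [Metric.mem_ball, dist_eq_norm] at hz
    refine hRN _ hR _ ?_ hz
    have e1 : (q : ℂ) + σ * al * z - ((q + σ * al * v : ℝ) : ℂ) = ((σ * al : ℝ) : ℂ) * (z - v) := by
      push_cast; ring
    show ‖(q : ℂ) + σ * al * z - ((q + σ * al * v : ℝ) : ℂ)‖ < r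
    rw [e1, norm_mul, Complex.norm_real, Real.norm_eq_abs]
    calc |σ * al| * ‖z - v‖ ≤ 1 * ‖z - v‖ := mul_le_mul_of_nonneg_right hσa (norm_nonneg _)
      _ < r := by linarith
  have hlin : ∀ z : ℂ, HasDerivAt (fun z : ℂ => ((q : ℂ) + σ * al * z, z)) ((σ * al : ℂ), (1 : ℂ)) z := by
    intro z
    have e1 : HasDerivAt (fun z : ℂ => (q : ℂ) + σ * al * z) (σ * al : ℂ) z := by
      simpa using ((hasDerivAt_id z).const_mul (σ * al : ℂ)).const_add (q : ℂ)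
    exact e1.prodMk (hasDerivAt_id z)
  have hGd : DifferentiableOn ℂ G (Metric.ball (v : ℂ) r) := by
    intro z hz
    have h3 : DifferentiableAt ℂ k ((fun z : ℂ => ((q : ℂ) + σ * al * z, z)) z) :=
      (hk _ (hmem z hz)).differentiableAt (hN.mem_nhds (hmem z hz))
    exact (DifferentiableAt.comp (f := fun z : ℂ => ((q : ℂ) + σ * al * z, z)) (g := k) z h3
      (hlin z).differentiableAt).differentiableWithinAt
  have hGb : ∀ z ∈ Metric.ball (v : ℂ) r, ‖G z‖ ≤ M := fun z hz => hb _ (hmem z hz)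
  have hvb : (v : ℂ) ∈ Metric.ball (v : ℂ) r := Metric.mem_ball_self hr
  obtain ⟨E1, E2⟩ := one_var hr hM (ε := m / 4) (by linarith) hGd hGb h0 h1 h2
  have hq : ((q : ℂ) + σ * al * v, (v : ℂ)) = (((q + σ * al * v : ℝ) : ℂ), (v : ℂ)) := by
    push_cast; rfl
  have hG0 : (G v).im = 0 := by
    show (k ((q : ℂ) + σ * al * v, (v : ℂ))).im = 0
    rw [hq]
    exact hre _ hR
  have hG1 : deriv G v = σ * al * D1 k (((q + σ * al * v : ℝ) : ℂ), (v : ℂ))
      + D2 k (((q + σ * al * v : ℝ) : ℂ), (v : ℂ)) := by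
    have h3 := (d12 k N hN hk).2.2.2 _ (hmem v hvb)
    have h4 := (HasFDerivAt.comp_hasDerivAt (f := fun z : ℂ => ((q : ℂ) + σ * al * z, z)) (v : ℂ)
      h3 (hlin v)).deriv
    have h5 : deriv G v = σ * al * D1 k ((q : ℂ) + σ * al * v, (v : ℂ))
      + D2 k ((q : ℂ) + σ * al * v, (v : ℂ)) := by
      rw [show G = k ∘ fun z : ℂ => ((q : ℂ) + σ * al * z, z) from rfl, h4]
      simp
      ring
    rw [h5, hq]
  have hDm := hD _ hR al hal0 hal1
  simp only at hDm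
  rw [← hG1] at hDm
  have him : ∀ z : ℂ, |z.im| ≤ ‖z‖ := Complex.abs_im_le_norm
  have h6 : (deriv G v * (h * I)).im = (deriv G v).re * h := by
    simp [Complex.mul_im]
  have h7 := (him _).trans E1
  rw [Complex.sub_im, Complex.sub_im, hG0, h6, abs_le] at h7
  have h8 := (him _).trans E2
  rw [Complex.sub_im, hG0, sub_zero] at h8
  have hmem' : (v : ℂ) + h * I ∈ Metric.ball (v : ℂ) r := by
    rw [Metric.mem_ball, dist_eq_norm]
    have : (v : ℂ) + h * I - v = h * I := by ring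
    rw [this, norm_mul, Complex.norm_I, mul_one, Complex.norm_real, Real.norm_eq_abs,
      abs_of_pos h0]
    linarith
  refine ⟨?_, h8, hGb _ hmem'⟩
  have h9 : σ * ((q : ℂ) + σ * al * (v + h * I) + σ * be * G (v + h * I)).im
      = al * h + be * (G (v + h * I)).im := by
    have e1 : ((q : ℂ) + σ * al * (v + h * I) + σ * be * G (v + h * I)).im
        = σ * al * h + σ * be * (G (v + h * I)).im := by
      rw [Complex.add_im, Complex.add_im, Complex.ofReal_im,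
        show (σ : ℂ) * al = ((σ * al : ℝ) : ℂ) by push_cast; ring,
        show (σ : ℂ) * be = ((σ * be : ℝ) : ℂ) by push_cast; ring,
        Complex.im_ofReal_mul, Complex.im_ofReal_mul]
      simp
    rw [e1]
    rcases hσ with rfl | rfl <;> ring
  show min (1 / 2) (m / 8) * (al + be) * h ≤
        σ * ((q : ℂ) + σ * al * (v + h * I) + σ * be * G (v + h * I)).im
  rw [h9]
  have h10 : (3 * m / 4 - al) * h ≤ (G (v + h * I)).im := by nlinarith [h7.1]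
  have h11 : be * ((3 * m / 4 - al) * h) ≤ be * (G (v + h * I)).im :=
    mul_le_mul_of_nonneg_left h10 hbe0
  have h12 : min (1 / 2) (m / 8) * (al + be) ≤ al + be * (3 * m / 4 - al) := by
    set c := min (1 / 2) (m / 8) with hc
    have hc1 : c ≤ 1 / 2 := min_le_left _ _
    have hc2 : c ≤ m / 8 := min_le_right _ _
    have hc0 : 0 < c := lt_min (by norm_num) (by linarith)
    by_cases hb2 : be ≤ 1 / 2
    · nlinarith [mul_nonneg hal0 (by linarith : (0:ℝ) ≤ 1 / 2 - be), mul_nonneg hbe0 hm.le,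
        mul_nonneg hal0 (by linarith : (0:ℝ) ≤ 1 / 2 - c),
        mul_nonneg hbe0 (by linarith : (0:ℝ) ≤ m / 8 - c)]
    · push Not at hb2
      have h13 : c * (al + be) ≤ m / 4 := by nlinarith
      have h14 : 0 ≤ al * (1 - be) := mul_nonneg hal0 (by linarith)
      nlinarith [mul_nonneg (by linarith : (0:ℝ) ≤ be - 1 / 2) hm.le]
  nlinarith

/-- integer shifts -/
theorem shift_int {N : Set (ℂ × ℂ)} (hNs : ∀ z ∈ N, (z.1 + 1, z.2) ∈ N ∧ (z.1 - 1, z.2) ∈ N)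
    {f : ℂ × ℂ → ℂ} (hf : ∀ z ∈ N, f (z.1 + 1, z.2) = f z) (n : ℤ) :
    ∀ z ∈ N, (z.1 + n, z.2) ∈ N ∧ f (z.1 + n, z.2) = f z := by
  induction n using Int.induction_on with
  | zero => intro z hz; simpa using hz
  | succ i ih =>
    intro z hz
    obtain ⟨h1, h2⟩ := ih z hz
    have h3 := (hNs _ h1).1
    have h4 := hf _ h1
    simp only at h3 h4
    have e : z.1 + ((i + 1 : ℤ) : ℂ) = z.1 + ((i : ℤ) : ℂ) + 1 := by push_cast; ring
    rw [e]
    exact ⟨h3, h4.trans h2⟩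
  | pred i ih =>
    intro z hz
    obtain ⟨h1, h2⟩ := ih z hz
    have h3 := (hNs _ h1).2
    have h4 := hf _ h3
    simp only at h3 h4
    have e : z.1 + ((-i - 1 : ℤ) : ℂ) = z.1 + ((-i : ℤ) : ℂ) - 1 := by push_cast; ring
    rw [e]
    refine ⟨h3, ?_⟩
    rw [← h2, ← h4]
    congr 2
    ring

/-- partial derivatives of a periodic function are periodic -/
theorem per_D {N : Set (ℂ × ℂ)} (hN : IsOpen N)
    {k : ℂ × ℂ → ℂ} (hper : ∀ z ∈ N, k (z.1 + 1, z.2) = k z) :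
    ∀ z ∈ N, D1 k (z.1 + 1, z.2) = D1 k z ∧ D2 k (z.1 + 1, z.2) = D2 k z := by
  intro z hz
  constructor
  · have e1 : D1 k (z.1 + 1, z.2) = deriv (fun x => k (x + 1, z.2)) z.1 := by
      show deriv (fun x => k (x, z.2)) (z.1 + 1) = _
      rw [deriv_comp_add_const (f := fun x => k (x, z.2)) 1 z.1]
    rw [e1]
    refine Filter.EventuallyEq.deriv_eq ?_
    have h1 : ∀ᶠ x in 𝓝 z.1, (x, z.2) ∈ N :=
      ContinuousAt.eventually_mem (f := fun x : ℂ => (x, z.2)) (by fun_prop) (hN.mem_nhds hz)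
    filter_upwards [h1] with x hx
    exact hper _ hx
  · refine Filter.EventuallyEq.deriv_eq ?_
    have h1 : ∀ᶠ x in 𝓝 z.2, (z.1, x) ∈ N :=
      ContinuousAt.eventually_mem (f := fun x : ℂ => (z.1, x)) (by fun_prop) (hN.mem_nhds hz)
    filter_upwards [h1] with x hx
    exact hper _ hx

/-- uniform lower bound -/
theorem lower {a b σ : ℝ} (hab : a ≤ b) {N : Set (ℂ × ℂ)} (hN : IsOpen N)
    (hNs : ∀ z ∈ N, (z.1 + 1, z.2) ∈ N ∧ (z.1 - 1, z.2) ∈ N) {k : ℂ × ℂ → ℂ}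
    (hk : DifferentiableOn ℂ k N) (hper : ∀ z ∈ N, k (z.1 + 1, z.2) = k z) {W : ℝ → ℝ → ℝ}
    (hWc : ContinuousOn (fun z : ℝ × ℝ => W z.1 z.2) (Icc a b ×ˢ univ))
    (hWp : ∀ Y ∈ Icc a b, ∀ x, W Y (x + 1) = W Y x)
    (hWN : ∀ Y ∈ Icc a b, ∀ x : ℝ, ((x : ℂ), (W Y x : ℂ)) ∈ N)
    (hpos : ∀ Y ∈ Icc a b, ∀ x al : ℝ, 0 ≤ al → al ≤ 1 →
      0 < al + (σ * al * D1 k ((x : ℂ), (W Y x : ℂ)) + D2 k ((x : ℂ), (W Y x : ℂ))).re) :
    ∃ m : ℝ, 0 < m ∧ ∀ Y ∈ Icc a b, ∀ x al : ℝ, 0 ≤ al → al ≤ 1 →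
      m ≤ al + (σ * al * D1 k ((x : ℂ), (W Y x : ℂ)) + D2 k ((x : ℂ), (W Y x : ℂ))).re := by
  set F : ℝ × ℝ × ℝ → ℝ := fun z => z.2.2 + (σ * z.2.2 * D1 k ((z.2.1 : ℂ), (W z.1 z.2.1 : ℂ))
    + D2 k ((z.2.1 : ℂ), (W z.1 z.2.1 : ℂ))).re with hF
  set Kc : Set (ℝ × ℝ × ℝ) := Icc a b ×ˢ (Icc (0:ℝ) 1 ×ˢ Icc (0:ℝ) 1) with hKc
  have hKcomp : IsCompact Kc := isCompact_Icc.prod (isCompact_Icc.prod isCompact_Icc)
  have hKne : Kc.Nonempty := ⟨(a, 0, 0), ⟨⟨le_rfl, hab⟩, ⟨⟨le_rfl, zero_le_one⟩, ⟨le_rfl, zero_le_one⟩⟩⟩⟩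
  obtain ⟨hd1, hd2, -, -⟩ := d12 k N hN hk
  have hmap : ContinuousOn (fun z : ℝ × ℝ × ℝ => ((z.2.1 : ℂ), (W z.1 z.2.1 : ℂ))) Kc := by
    refine ContinuousOn.prodMk (by fun_prop) ?_
    refine Complex.continuous_ofReal.comp_continuousOn ?_
    exact ContinuousOn.comp (g := fun z : ℝ × ℝ => W z.1 z.2) (f := fun z : ℝ × ℝ × ℝ => (z.1, z.2.1))
      hWc (by fun_prop) (fun z hz => ⟨hz.1, mem_univ _⟩)
  have hmaps : MapsTo (fun z : ℝ × ℝ × ℝ => ((z.2.1 : ℂ), (W z.1 z.2.1 : ℂ))) Kc N :=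
    fun z hz => hWN _ hz.1 _
  have hc1 : ContinuousOn (fun z : ℝ × ℝ × ℝ => D1 k ((z.2.1 : ℂ), (W z.1 z.2.1 : ℂ))) Kc :=
    hd1.continuousOn.comp hmap hmaps
  have hc2 : ContinuousOn (fun z : ℝ × ℝ × ℝ => D2 k ((z.2.1 : ℂ), (W z.1 z.2.1 : ℂ))) Kc :=
    hd2.continuousOn.comp hmap hmaps
  have hFc : ContinuousOn F Kc := by
    refine ContinuousOn.add (by fun_prop) (Complex.continuous_re.comp_continuousOn ?_)
    exact ContinuousOn.add (ContinuousOn.mul (by fun_prop) hc1) hc2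
  obtain ⟨z0, hz0, hmin⟩ := hKcomp.exists_isMinOn hKne hFc
  refine ⟨F z0, hpos z0.1 hz0.1 z0.2.1 z0.2.2 hz0.2.2.1 hz0.2.2.2, ?_⟩
  intro Y hY x al h0 h1
  have hfr := hmin (show (Y, Int.fract x, al) ∈ Kc from
    ⟨hY, ⟨⟨Int.fract_nonneg x, (Int.fract_lt_one x).le⟩, ⟨h0, h1⟩⟩⟩)
  have hW1 : W Y x = W Y (Int.fract x) := by
    have h2 : Function.Periodic (W Y) 1 := hWp Y hY
    have h3 := h2.int_mul (⌊x⌋) (Int.fract x)
    rw [mul_one, Int.fract_add_floor] at h3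
    exact h3
  have hx : ((x : ℂ), (W Y x : ℂ)) = (((Int.fract x : ℝ) : ℂ) + (⌊x⌋ : ℤ), (W Y (Int.fract x) : ℂ)) := by
    rw [hW1]
    congr 1
    have h2 := Int.fract_add_floor x
    have h3 := congrArg (fun t : ℝ => (t : ℂ)) h2
    push_cast at h3
    exact h3.symm
  have hp1 := (shift_int hNs (f := D1 k) (fun z hz => (per_D hN hper z hz).1) ⌊x⌋ _
    (hWN Y hY (Int.fract x))).2
  have hp2 := (shift_int hNs (f := D2 k) (fun z hz => (per_D hN hper z hz).2) ⌊x⌋ _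
    (hWN Y hY (Int.fract x))).2
  simp only at hp1 hp2
  rw [hx, hp1, hp2]
  exact hfr

theorem pos_plus (hReg : GReg) (hJac : GJac) {S : Sys} (hS : S.Ok) {Y : ℝ} (hY : Y ∈ Icc S.a S.b)
    (x0 al : ℝ) (h0 : 0 ≤ al) (h1 : al ≤ 1) :
    0 < al + (((1 : ℝ) : ℂ) * al * D1 (fun z : ℂ × ℂ => S.K z.1 z.2) ((x0 : ℂ), (S.V Y x0 1 : ℂ))
      + D2 (fun z : ℂ × ℂ => S.K z.1 z.2) ((x0 : ℂ), (S.V Y x0 1 : ℂ))).re := by
  obtain ⟨-, -, -, -, -, -, -, -, -, hleaf, -, horb, -⟩ := hReg S hS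
  obtain ⟨hex, hder⟩ := hJac S hS Y hY (S.gi Y x0)
  obtain ⟨d, e, he, hd1, hd2, -, -⟩ := hder x0
  set x := S.gi Y x0 with hx
  have ho0 : S.orb Y x 0 = x := rfl
  have ho1 : S.orb Y x 1 = x0 := by
    have h2 := (horb Y hY x 0).1
    rw [zero_add, ho0] at h2
    rw [h2, hx]
    exact ((hleaf Y hY).2.2.2.2 x0).1
  have hv : S.V Y x0 1 = S.vel Y x 0 := by
    have h2 := (horb Y hY x 0).2.2.2.1
    rw [zero_add, ho1] at h2
    exact h2
  obtain ⟨ξ, η, hJ, hξ, hη⟩ := hex 0 (-(1 - al)) 1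
  have p0 := hJ.pos 0
  have p1 := hJ.pos 1
  have k0 := hJ.kick 0
  rw [zero_add] at p0 k0
  have e2 : (1 : ℤ) + 1 = 2 := rfl
  rw [e2] at p1
  rw [hξ, hη] at p0
  have hξ1 : ξ 1 = al := by rw [p0]; ring
  rw [ho1, hξ1, hη, ← hv, hd1.deriv, hd2.deriv] at k0
  have hη1 : η 1 = d * al + e := by
    have : (η 1 : ℂ) = ((d * al + e : ℝ) : ℂ) := by rw [k0]; push_cast; ring
    exact_mod_cast this
  have hdisc := (hS.disc Y hY x ξ η hJ (by rw [hξ]; linarith) (by rw [hξ1]; exact h0)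
    (by rintro ⟨a1, a2⟩; rw [hξ] at a1; rw [hξ1] at a2; linarith)).1 2 le_rfl
  rw [p1, hξ1, hη1] at hdisc
  have eD1 : D1 (fun z : ℂ × ℂ => S.K z.1 z.2) ((x0 : ℂ), (S.V Y x0 1 : ℂ)) = (d : ℂ) := hd1.deriv
  have eD2 : D2 (fun z : ℂ × ℂ => S.K z.1 z.2) ((x0 : ℂ), (S.V Y x0 1 : ℂ)) = (e : ℂ) := hd2.deriv
  rw [eD1, eD2]
  have : (((1 : ℝ) : ℂ) * al * d + e).re = d * al + e := by
    have : (((1 : ℝ) : ℂ) * al * d + e) = ((d * al + e : ℝ) : ℂ) := by push_cast; ring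
    rw [this, Complex.ofReal_re]
  rw [this]
  linarith

theorem pos_minus (hReg : GReg) (hJac : GJac) {S : Sys} (hS : S.Ok) {Y : ℝ} (hY : Y ∈ Icc S.a S.b)
    (x0 al : ℝ) (h0 : 0 ≤ al) (h1 : al ≤ 1) :
    0 < al + (((-1 : ℝ) : ℂ) * al * D1 (fun z : ℂ × ℂ => S.Ki z.1 z.2) ((x0 : ℂ), (S.V Y x0 0 : ℂ))
      + D2 (fun z : ℂ × ℂ => S.Ki z.1 z.2) ((x0 : ℂ), (S.V Y x0 0 : ℂ))).re := by
  obtain ⟨-, -, -, -, -, -, -, -, -, -, -, horb, -⟩ := hReg S hS
  obtain ⟨hex, hder⟩ := hJac S hS Y hY x0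
  obtain ⟨d, e, he, hd1, hd2, hd3, hd4⟩ := hder x0
  have ho0 : S.orb Y x0 0 = x0 := rfl
  have hv : S.V Y x0 1 = S.vel Y x0 (-1) := by
    have h2 := (horb Y hY x0 (-1)).2.2.2.1
    rw [show (-1 : ℤ) + 1 = 0 from rfl, ho0] at h2
    exact h2
  obtain ⟨ξ, η, hJ, hξ, hη⟩ := hex 0 (-al) 1
  have p0 := hJ.pos 0
  have p1 := hJ.pos (-1)
  have k0 := hJ.kick (-1)
  rw [zero_add] at p0
  rw [show (-1 : ℤ) + 1 = 0 from rfl] at p1 k0
  rw [hξ, hη] at p0
  have hξ1 : ξ 1 = 1 - al := by rw [p0]; ring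
  rw [ho0, hξ, hη, ← hv, hd1.deriv, hd2.deriv] at k0
  have hη1 : (1 : ℝ) = d * (-al) + e * η (-1) := by
    have : ((1 : ℝ) : ℂ) = ((d * (-al) + e * η (-1) : ℝ) : ℂ) := by rw [k0]; push_cast; ring
    exact_mod_cast this
  have hdisc := (hS.disc Y hY x0 ξ η hJ (by rw [hξ]; linarith) (by rw [hξ1]; linarith)
    (by rintro ⟨a1, a2⟩; rw [hξ] at a1; rw [hξ1] at a2; linarith)).2 (-1) le_rfl
  rw [hξ] at p1
  have hη2 : η (-1) = (1 + d * al) / e := by
    rw [eq_div_iff he.ne']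
    linarith
  have eD1 : D1 (fun z : ℂ × ℂ => S.Ki z.1 z.2) ((x0 : ℂ), (S.V Y x0 0 : ℂ))
      = ((-(d / e) : ℝ) : ℂ) := hd3.deriv
  have eD2 : D2 (fun z : ℂ × ℂ => S.Ki z.1 z.2) ((x0 : ℂ), (S.V Y x0 0 : ℂ))
      = ((1 / e : ℝ) : ℂ) := hd4.deriv
  rw [eD1, eD2]
  have : (((-1 : ℝ) : ℂ) * al * ((-(d / e) : ℝ) : ℂ) + ((1 / e : ℝ) : ℂ)).re
      = (1 + d * al) / e := by
    have : (((-1 : ℝ) : ℂ) * al * ((-(d / e) : ℝ) : ℂ) + ((1 / e : ℝ) : ℂ))
        = ((-1 * al * (-(d / e)) + 1 / e : ℝ) : ℂ) := by push_cast; ring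
    rw [this, Complex.ofReal_re]
    field_simp
    ring
  rw [this, ← hη2]
  linarith

theorem ft_sign' (hReg : GReg) (hJac : GJac) : GSign := by
  intro S hS
  obtain ⟨hleafpt, -, hstr, -, ⟨M2, hM2⟩, hopen, -, hinv, -, -, -, -, -⟩ := hReg S hS
  obtain ⟨M1, hK1, hKi1⟩ := hS.Kbd
  have hab : S.a ≤ S.b := by linarith [hS.ha, hS.hb]
  have h01 : (0:ℝ) ∈ Icc (0:ℝ) 1 := ⟨le_rfl, zero_le_one⟩
  have h11 : (1:ℝ) ∈ Icc (0:ℝ) 1 := ⟨zero_le_one, le_rfl⟩
  set M : ℝ := max M1 1 with hM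
  have hMpos : 0 < M := lt_of_lt_of_le one_pos (le_max_right _ _)
  have hbK : ∀ z ∈ S.Nb 1 S.r, ‖S.K z.1 z.2‖ ≤ M := fun z hz => (hK1 z hz).trans (le_max_left _ _)
  have hbKi : ∀ z ∈ S.Nb 0 S.r, ‖S.Ki z.1 z.2‖ ≤ M := fun z hz => (hKi1 z hz).trans (le_max_left _ _)
  have hVc : ∀ t ∈ Icc (0:ℝ) 1, ContinuousOn (fun z : ℝ × ℝ => S.V z.1 z.2 t) (Icc S.a S.b ×ˢ univ) := by
    intro t ht
    exact ContinuousOn.comp (g := fun z : ℝ × ℝ × ℝ => S.V z.1 z.2.1 z.2.2)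
      (f := fun z : ℝ × ℝ => (z.1, z.2, t)) hS.Vcont (by fun_prop)
      (fun z hz => ⟨hz.1, mem_univ _, ht⟩)
  have hVR : ∀ t ∈ Icc (0:ℝ) 1, ∀ Y ∈ Icc S.a S.b, ∀ x : ℝ, (x, S.V Y x t) ∈ S.Reg t := by
    intro t ht Y hY x
    refine ⟨?_, ?_⟩
    · rcases hY.1.eq_or_lt with h | h
      · exact h ▸ le_rfl
      · exact (hS.Vmono S.a ⟨le_rfl, hab⟩ Y hY h x t ht).le
    · rcases hY.2.eq_or_lt with h | h
      · exact h ▸ le_rfl
      · exact (hS.Vmono Y hY S.b ⟨hab, le_rfl⟩ h x t ht).le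
  have hRN : ∀ t : ℝ, ∀ y ∈ S.Reg t, ∀ z : ℂ × ℂ, ‖z.1 - (y.1 : ℂ)‖ < S.r →
      ‖z.2 - (y.2 : ℂ)‖ < S.r → z ∈ S.Nb t S.r := fun t y hy z h1 h2 => ⟨y, hy, h1, h2⟩
  have hVN : ∀ t ∈ Icc (0:ℝ) 1, ∀ Y ∈ Icc S.a S.b, ∀ x : ℝ,
      ((x : ℂ), (S.V Y x t : ℂ)) ∈ S.Nb t S.r := fun t ht Y hY x =>
    hRN t _ (hVR t ht Y hY x) _ (by simpa using hS.hr) (by simpa using hS.hr)
  obtain ⟨m₁, hm₁, hD₁⟩ := lower (σ := 1) hab (hopen 1 S.r)
    (fun z hz => ⟨(hinv S.r 1 h11 z hz).1, (hinv S.r 1 h11 z hz).2.1⟩) hS.Khol hS.Kper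
    (W := fun Y x => S.V Y x 1) (hVc 1 h11) (fun Y hY x => hS.Vper Y hY x 1 h11)
    (hVN 1 h11) (fun Y hY x al h0 h1 => pos_plus hReg hJac hS hY x al h0 h1)
  obtain ⟨m₂, hm₂, hD₂⟩ := lower (σ := -1) hab (hopen 0 S.r)
    (fun z hz => ⟨(hinv S.r 0 h01 z hz).1, (hinv S.r 0 h01 z hz).2.1⟩) hS.Kihol hS.Kiper
    (W := fun Y x => S.V Y x 0) (hVc 0 h01) (fun Y hY x => hS.Vper Y hY x 0 h01)
    (hVN 0 h01) (fun Y hY x al h0 h1 => pos_minus hReg hJac hS hY x al h0 h1)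
  set m : ℝ := min m₁ m₂ with hm
  have hmpos : 0 < m := lt_min hm₁ hm₂
  have hsig₁ := sig (σ := 1) (Or.inl rfl) (hopen 1 S.r) (S.Reg 1) (m := m) hS.hr hMpos hmpos
    (hRN 1) hS.Khol hbK (by
      intro y hy
      obtain ⟨Y, hY, hyY⟩ := hleafpt 1 h11 y hy
      show (S.K (y.1 : ℂ) (y.2 : ℂ)).im = 0
      rw [hyY, hS.KV Y hY y.1, Complex.ofReal_im]) (by
      intro y hy al h0 h1
      obtain ⟨Y, hY, hyY⟩ := hleafpt 1 h11 y hy
      rw [hyY]
      exact (min_le_left _ _).trans (hD₁ Y hY y.1 al h0 h1))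
  have hsig₂ := sig (σ := -1) (Or.inr rfl) (hopen 0 S.r) (S.Reg 0) (m := m) hS.hr hMpos hmpos
    (hRN 0) hS.Kihol hbKi (by
      intro y hy
      obtain ⟨Y, hY, hyY⟩ := hleafpt 0 h01 y hy
      show (S.Ki (y.1 : ℂ) (y.2 : ℂ)).im = 0
      rw [hyY, hS.KiV Y hY y.1, Complex.ofReal_im]) (by
      intro y hy al h0 h1
      obtain ⟨Y, hY, hyY⟩ := hleafpt 0 h01 y hy
      rw [hyY]
      exact (min_le_right _ _).trans (hD₂ Y hY y.1 al h0 h1))
  have hrpos := hS.hr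
  set c₀ : ℝ := min (1 / 2) (m / 8) with hc₀
  have hc₀pos : 0 < c₀ := lt_min (by norm_num) (by linarith)
  have hc₀1 : c₀ ≤ 1 := (min_le_left _ _).trans (by norm_num)
  refine ⟨min (min (S.r / 8) (m * S.r ^ 2 / (128 * M))) 1, c₀, 4 * M / S.r + M + |M2| + 2,
    by positivity, hc₀pos, by positivity, ?_⟩
  intro δ ρ w c hδ hT t₀ ht₀ z hz1 hz2
  set W : ℂ := wt w z with hWdef
  have hfr : Int.fract z.2 ∈ Icc (0:ℝ) 1 := ⟨Int.fract_nonneg _, (Int.fract_lt_one _).le⟩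
  have hWpos : 0 < W.im ∧ W.im ≤ δ := hT.pos z.1 _ hfr
  have hWreg : (z.1, W.re) ∈ S.Reg (Int.fract z.2) := hT.reg z.1 _ hfr
  set v : ℝ := W.re with hv
  set h : ℝ := W.im with hh
  have hW : W = (v : ℂ) + h * I := (Complex.re_add_im W).symm
  have hhδ : h ≤ min (min (S.r / 8) (m * S.r ^ 2 / (128 * M))) 1 := hWpos.2.trans hδ
  have hh1 : h ≤ S.r / 8 := hhδ.trans ((min_le_left _ _).trans (min_le_left _ _))
  have hh2 : h ≤ m * S.r ^ 2 / (128 * M) := hhδ.trans ((min_le_left _ _).trans (min_le_right _ _))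
  have hh3 : h ≤ 1 := hhδ.trans (min_le_right _ _)
  have hh4 : h * (32 * M) ≤ m / 4 * S.r ^ 2 := by
    rw [le_div_iff₀ (by positivity)] at hh2
    nlinarith
  have hvM : |v| ≤ |M2| := (hM2 _ hfr _ hWreg).trans (le_abs_self _)
  have hWn : ‖W‖ ≤ |M2| + 1 := by
    rw [hW]
    refine (norm_add_le _ _).trans ?_
    rw [norm_mul, Complex.norm_I, mul_one, Complex.norm_real, Complex.norm_real, Real.norm_eq_abs,
      Real.norm_eq_abs, abs_of_pos hWpos.1]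
    linarith
  have hbig : (0:ℝ) ≤ 4 * M / S.r := by positivity
  rcases lt_or_ge z.2 0 with hneg | hnn
  · -- one kick forwards
    have hfloor : ⌊z.2⌋ = -1 := by
      rw [Int.floor_eq_iff]
      push_cast
      constructor <;> linarith
    have hfrac : Int.fract z.2 = z.2 + 1 := by
      rw [Int.fract, hfloor]; push_cast; ring
    have hO : OmF S w z = S.K ((z.1 : ℂ) - z.2 * W) W := by
      simp only [OmF, if_pos hneg, hWdef]
    have hX : XF S w t₀ z = (z.1 : ℂ) - z.2 * W + t₀ * OmF S w z := by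
      simp only [XF, if_pos hneg, hWdef]
    have hR1 : (z.1 + 1 * (-z.2) * v, v) ∈ S.Reg 1 := by
      have h2 := hstr (Int.fract z.2) hfr 1 h11 _ hWreg
      simp only at h2
      rw [hfrac] at h2
      have e : z.1 + (1 - (z.2 + 1)) * v = z.1 + 1 * (-z.2) * v := by ring
      rwa [e] at h2
    obtain ⟨g1, g2, g3⟩ := hsig₁ z.1 v (-z.2) t₀ h (by linarith) (by linarith) ht₀.1 ht₀.2 hR1
      hWpos.1 hh1 hh4
    have e1 : (z.1 : ℂ) + ((1 : ℝ) : ℂ) * ((-z.2 : ℝ) : ℂ) * (v + h * I) = (z.1 : ℂ) - z.2 * W := by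
      rw [hW]; push_cast; ring
    rw [e1, ← hW] at g1 g2 g3
    simp only at g1 g2 g3
    rw [← hO] at g1 g2 g3
    have e2 : (z.1 : ℂ) - z.2 * W + ((1 : ℝ) : ℂ) * t₀ * OmF S w z = XF S w t₀ z := by
      rw [hX]; push_cast; ring
    rw [e2] at g1
    refine ⟨fun _ => ?_, fun h2 => ?_, ?_, ?_, ?_⟩
    · calc c₀ * (t₀ - z.2) * h = c₀ * (-z.2 + t₀) * h := by ring
        _ ≤ 1 * (XF S w t₀ z).im := g1
        _ = (XF S w t₀ z).im := one_mul _
    · exact absurd (lt_of_le_of_lt h2 hneg) (not_lt.2 ht₀.1)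
    · refine g2.trans (mul_le_mul_of_nonneg_right ?_ hWpos.1.le)
      have := abs_nonneg M2
      linarith
    · have := abs_nonneg M2
      linarith
    · have e3 : XF S w t₀ z - z.1 = ((-z.2 : ℝ) : ℂ) * W + (t₀ : ℂ) * OmF S w z := by
        rw [hX]; push_cast; ring
      rw [e3]
      have e4 : |z.2 - t₀| = -z.2 + t₀ := by
        rw [abs_of_nonpos (by linarith [ht₀.1])]; ring
      rw [e4]
      refine (norm_add_le _ _).trans ?_
      rw [norm_mul, norm_mul, Complex.norm_real, Complex.norm_real, Real.norm_eq_abs,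
        Real.norm_eq_abs, abs_of_pos (by linarith : (0:ℝ) < -z.2), abs_of_nonneg ht₀.1]
      have a1 : -z.2 * ‖W‖ ≤ -z.2 * (4 * M / S.r + M + |M2| + 2) :=
        mul_le_mul_of_nonneg_left (by linarith) (by linarith)
      have a2 : t₀ * ‖OmF S w z‖ ≤ t₀ * (4 * M / S.r + M + |M2| + 2) :=
        mul_le_mul_of_nonneg_left (by linarith [abs_nonneg M2]) ht₀.1
      linarith
  rcases lt_or_ge z.2 1 with hlt | hge
  · -- no kick
    have hO : OmF S w z = W := by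
      simp only [OmF, if_neg (not_lt.2 hnn), if_pos hlt, hWdef]
    have hX : XF S w t₀ z = (z.1 : ℂ) + (t₀ - z.2) * W := by
      simp only [XF, if_neg (not_lt.2 hnn), if_pos hlt, hWdef]
    have hXim : (XF S w t₀ z).im = (t₀ - z.2) * h := by
      rw [hX, Complex.add_im, Complex.ofReal_im,
        show (t₀ : ℂ) - z.2 = ((t₀ - z.2 : ℝ) : ℂ) by push_cast; ring, Complex.im_ofReal_mul]
      ring
    refine ⟨fun h2 => ?_, fun h2 => ?_, ?_, ?_, ?_⟩
    · rw [hXim]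
      have : c₀ * ((t₀ - z.2) * h) ≤ 1 * ((t₀ - z.2) * h) :=
        mul_le_mul_of_nonneg_right hc₀1 (mul_nonneg (by linarith) hWpos.1.le)
      linarith
    · rw [hXim]
      have : c₀ * ((z.2 - t₀) * h) ≤ 1 * ((z.2 - t₀) * h) :=
        mul_le_mul_of_nonneg_right hc₀1 (mul_nonneg (by linarith) hWpos.1.le)
      linarith
    · rw [hO, ← hh, abs_of_pos hWpos.1]
      have : 1 * h ≤ (4 * M / S.r + M + |M2| + 2) * h :=
        mul_le_mul_of_nonneg_right (by linarith [abs_nonneg M2]) hWpos.1.le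
      linarith
    · rw [hO]
      linarith
    · have e3 : XF S w t₀ z - z.1 = ((t₀ - z.2 : ℝ) : ℂ) * W := by
        rw [hX]; push_cast; ring
      rw [e3, norm_mul, Complex.norm_real, Real.norm_eq_abs, abs_sub_comm, mul_comm]
      exact mul_le_mul_of_nonneg_right (by linarith) (abs_nonneg _)
  · -- one kick backwards
    have hfloor : ⌊z.2⌋ = 1 := by
      rw [Int.floor_eq_iff]
      push_cast
      constructor <;> linarith
    have hfrac : Int.fract z.2 = z.2 - 1 := by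
      rw [Int.fract, hfloor]; push_cast; ring
    have hO : OmF S w z = S.Ki ((z.1 : ℂ) + (1 - z.2) * W) W := by
      simp only [OmF, if_neg (not_lt.2 hnn), if_neg (not_lt.2 hge), hWdef]
    have hX : XF S w t₀ z = (z.1 : ℂ) + (1 - z.2) * W + (t₀ - 1) * OmF S w z := by
      simp only [XF, if_neg (not_lt.2 hnn), if_neg (not_lt.2 hge), hWdef]
    have hR0 : (z.1 + (-1) * (z.2 - 1) * v, v) ∈ S.Reg 0 := by
      have h2 := hstr (Int.fract z.2) hfr 0 h01 _ hWreg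
      simp only at h2
      rw [hfrac] at h2
      have e : z.1 + (0 - (z.2 - 1)) * v = z.1 + (-1) * (z.2 - 1) * v := by ring
      rwa [e] at h2
    obtain ⟨g1, g2, g3⟩ := hsig₂ z.1 v (z.2 - 1) (1 - t₀) h (by linarith) (by linarith)
      (by linarith [ht₀.2]) (by linarith [ht₀.1]) hR0 hWpos.1 hh1 hh4
    have e1 : (z.1 : ℂ) + ((-1 : ℝ) : ℂ) * ((z.2 - 1 : ℝ) : ℂ) * (v + h * I)
        = (z.1 : ℂ) + (1 - z.2) * W := by
      rw [hW]; push_cast; ring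
    rw [e1, ← hW] at g1 g2 g3
    simp only at g1 g2 g3
    rw [← hO] at g1 g2 g3
    have e2 : (z.1 : ℂ) + (1 - z.2) * W + ((-1 : ℝ) : ℂ) * ((1 - t₀ : ℝ) : ℂ) * OmF S w z
        = XF S w t₀ z := by
      rw [hX]; push_cast; ring
    rw [e2] at g1
    have g1' : (XF S w t₀ z).im ≤ -(c₀ * (z.2 - t₀) * h) := by
      have : c₀ * (z.2 - 1 + (1 - t₀)) * h = c₀ * (z.2 - t₀) * h := by ring
      rw [this] at g1
      linarith
    refine ⟨fun h2 => ?_, fun _ => g1', ?_, ?_, ?_⟩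
    · have hz21 : z.2 = 1 := le_antisymm (h2.trans ht₀.2) hge
      have ht1 : t₀ = 1 := le_antisymm ht₀.2 (hz21 ▸ h2)
      have : XF S w t₀ z = (z.1 : ℂ) := by
        rw [hX, hz21, ht1]; push_cast; ring
      rw [this, Complex.ofReal_im, hz21, ht1]
      simp
    · refine g2.trans (mul_le_mul_of_nonneg_right ?_ hWpos.1.le)
      have := abs_nonneg M2
      linarith
    · have := abs_nonneg M2
      linarith
    · have e3 : XF S w t₀ z - z.1
          = ((-(z.2 - 1) : ℝ) : ℂ) * W + ((-(1 - t₀) : ℝ) : ℂ) * OmF S w z := by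
        rw [hX]; push_cast; ring
      rw [e3]
      have e4 : |z.2 - t₀| = (z.2 - 1) + (1 - t₀) := by
        rw [abs_of_nonneg (by linarith [ht₀.2])]; ring
      rw [e4]
      refine (norm_add_le _ _).trans ?_
      rw [norm_mul, norm_mul, Complex.norm_real, Complex.norm_real, Real.norm_eq_abs,
        Real.norm_eq_abs, abs_neg, abs_neg, abs_of_nonneg (by linarith : (0:ℝ) ≤ z.2 - 1),
        abs_of_nonneg (by linarith [ht₀.2] : (0:ℝ) ≤ 1 - t₀)]
      have a1 : (z.2 - 1) * ‖W‖ ≤ (z.2 - 1) * (4 * M / S.r + M + |M2| + 2) :=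
        mul_le_mul_of_nonneg_left (by linarith) (by linarith)
      have a2 : (1 - t₀) * ‖OmF S w z‖ ≤ (1 - t₀) * (4 * M / S.r + M + |M2| + 2) :=
        mul_le_mul_of_nonneg_left (by linarith [abs_nonneg M2]) (by linarith [ht₀.2])
      linarith

theorem ft_sign : GReg → GMom → GJac → GSign := fun h _ h' => ft_sign' h h'

end Pool.Agent.Helper83.FT
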